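import Pool.Agent.TH797.DG2

/-!
# A gap theorem for the Hattori–Stallings ranks of projective modules over group rings
-/

set_option autoImplicit false

namespace Pool.Agent.Results.MP_f7db47_al.RankGap

open MonoidAlgebra Pool.Agent.TH797.DG

universe u v

/-- the order of `x` (zero if it is infinite) is not invertible in `R` -/
def Bad (R : Type u) [CommRing R] {G : Type v} [Group G] (x : G) : Prop := ¬ IsUnit ((orderOf x : ℕ) : R)

/-- the Hattori–Stallings ranks of the idempotent matrices over `R[G]` vanish at the elements
whose order is not invertible in `R` -/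
def Vanishing (R : Type u) [CommRing R] (G : Type v) [Group G] : Prop :=
  ∀ (n : ℕ) (e : Matrix (Fin n) (Fin n) (MonoidAlgebra R G)), e * e = e →
    ∀ g : G, Bad R g → hs e g = 0

/-- for every `c > 0` there is `C` such that the rank of every idempotent `n × n` matrix over
`R[G]` is nonzero at no more than `c n + C` conjugacy classes of elements whose order is not
invertible in `R` -/
def Sublinear (R : Type u) [CommRing R] (G : Type v) [Group G] : Prop :=
  ∀ c : ℝ, 0 < c → ∃ C : ℝ, ∀ (n : ℕ) (e : Matrix (Fin n) (Fin n) (MonoidAlgebra R G)),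
    e * e = e → ∀ S : Finset G, (∀ x ∈ S, Bad R x ∧ hs e x ≠ 0) →
      (∀ x ∈ S, ∀ y ∈ S, IsConj x y → x = y) → (S.card : ℝ) ≤ c * n + C

lemma order_eq {G : Type v} [Group G] {g : G} {x : ℕ → G} (hx : x ≠ 1)
    (h : ∀ i, x i = 1 ∨ x i = g) : orderOf x = orderOf g := by
  apply orderOf_eq_orderOf_iff.2
  intro m
  constructor
  · intro hm
    obtain ⟨i, hi⟩ : ∃ i, x i ≠ 1 := by
      by_contra hne
      push Not at hne
      exact hx (funext hne)
    have h1 := congrFun hm i
    rw [Pi.pow_apply, (h i).resolve_left hi] at h1
    exact h1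
  · intro hm
    funext i
    rw [Pi.pow_apply]
    rcases h i with h | h
    · rw [h, one_pow]; rfl
    · rw [h, hm]; rfl

theorem vanishing_of {R : Type u} [CommRing R] {G : Type v} [Group G] (h : Sublinear R (ℕ → G)) :
    Vanishing R G := by
  classical
  intro n e he g hg
  by_contra hne
  have hg1 : g ≠ 1 := by
    rintro rfl
    apply hg
    rw [orderOf_one, Nat.cast_one]
    exact isUnit_one
  obtain ⟨C, hC⟩ := h (1 / (2 * (n + 1))) (by positivity)
  have key : ∀ j : ℕ, (j : ℝ) ≤ j / 2 + C := by
    intro j
    obtain ⟨s, hs', E, hE, S, hS, hS'⟩ := sums2 g hg1 e he hne j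
    have h3 := hC s E hE S ?_ ?_
    · rw [hS, hs'] at h3
      push_cast at h3
      have hn : (0 : ℝ) ≤ n := Nat.cast_nonneg n
      have hj : (0 : ℝ) ≤ j := Nat.cast_nonneg j
      have h4 : 1 / (2 * ((n : ℝ) + 1)) * (j * n) ≤ j / 2 := by
        rw [div_mul_eq_mul_div, div_le_div_iff₀ (by positivity) (by norm_num)]
        nlinarith
      linarith
    · intro x hx
      obtain ⟨hx1, ha, hb'⟩ := hS' x hx
      refine ⟨?_, hb'⟩
      unfold Bad
      rw [order_eq hx1 ha]
      exact hg
    · intro x hx y hy hxy
      obtain ⟨-, ha, -⟩ := hS' x hx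
      obtain ⟨-, hb1, -⟩ := hS' y hy
      funext i
      have hc := isConj_pi hxy i
      rcases ha i with h | h <;> rcases hb1 i with h' | h'
      · rw [h, h']
      · exfalso
        rw [h, h'] at hc
        exact hg1 (isConj_one_right.1 hc)
      · exfalso
        rw [h, h'] at hc
        exact hg1 (isConj_one_right.1 hc.symm)
      · rw [h, h']
  obtain ⟨j, hj⟩ := exists_nat_gt (2 * C)
  have h1 := key j
  linarith

/-- Let `R` be a commutative ring.
(1) Let `G` be a group such that for every `c > 0` there is `C` with: the Hattori–Stallings rank of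
every idempotent `n × n` matrix over `R[G ^ ℕ]` is nonzero at no more than `c n + C` conjugacy
classes of elements whose order is not invertible in `R`. Then the rank of every idempotent matrix
over `R[G]` vanishes at every element whose order is not invertible in `R`.
(2) Let `𝒞` be a class of groups which contains with `G` the group `G ^ ℕ` of all sequences in
`G`. Then the ranks vanish at the elements whose order is not invertible, for all groups of `𝒞`,
if and only if the bound of (1) holds for all groups of `𝒞`. -/
theorem result (R : Type u) [CommRing R] :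
    (∀ (G : Type v) [Group G], Sublinear R (ℕ → G) → Vanishing R G) ∧
    (∀ 𝒞 : (∀ (G : Type v) [Group G], Prop), (∀ (G : Type v) [Group G], 𝒞 G → 𝒞 (ℕ → G)) →
      ((∀ (G : Type v) [Group G], 𝒞 G → Sublinear R G) ↔
        (∀ (G : Type v) [Group G], 𝒞 G → Vanishing R G))) := by
  refine ⟨fun G _ h => vanishing_of h, ?_⟩
  intro 𝒞 h𝒞
  refine ⟨fun h G _ hG => vanishing_of (h _ (h𝒞 G hG)), fun h G _ hG => ?_⟩
  intro c hc
  refine ⟨0, fun n e he S hS _ => ?_⟩
  have : S = ∅ := by
    apply Finset.eq_empty_of_forall_notMem
    intro x hx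
    exact (hS x hx).2 (h G hG n e he x (hS x hx).1)
  rw [this]
  simp only [Finset.card_empty, Nat.cast_zero, add_zero]
  positivity

end Pool.Agent.Results.MP_f7db47_al.RankGap
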