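import Pool.Agent.TH6.PF.PGen

set_option autoImplicit false

/-! For every group `G` and every ring `R`, an invertible matrix over `RG` whose support pattern has
operator norm less than `3 / √2` is a product of matrices over the group rings of virtually cyclic
subgroups; up to group elements it is a block sum of such matrices. -/

namespace Pool.Agent.Results.MP_f7db47_al.ThinMatrices

open TH57.Thr TH6.PF Matrix

theorem result (R : Type) [Ring R] (G : Type) [Group G] (c : ℝ) (hc0 : 0 < c)
    (hc : c ^ 2 < 9 / 2) (n : ℕ) (A : (Matrix (Fin n) (Fin n) (MonoidAlgebra R G))ˣ)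
    (hA : ThinLE A.val c) :
    A ∈ VCGen R G (Fin n) ∧
    ∃ (ρ σ : Fin n → Fin n ⊕ Fin n) (u v : Fin n → G) (C : Fin n ⊕ Fin n → Subgroup G)
      (θ : ∀ a, Matrix {i // ρ i = a} {j // σ j = a} (MonoidAlgebra R (C a)))
      (η : ∀ a, Matrix {j // σ j = a} {i // ρ i = a} (MonoidAlgebra R (C a))),
      (∀ a, IsVC (C a)) ∧ (∀ a, θ a * η a = 1 ∧ η a * θ a = 1) ∧
      (dmU R u).val * A.val * (dmU R v)⁻¹.val = blockSum ρ σ C θ :=
  thin_below A c hc0 hc hA

end Pool.Agent.Results.MP_f7db47_al.ThinMatrices
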