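import Pool.Agent.TH6.PF.PK

set_option autoImplicit false

/-! For every group `G` and every ring `R`, every class of `K₁(RG)` is represented by an invertible
matrix whose support pattern has operator norm as close to `3 / √2` as one likes. -/

namespace Pool.Agent.Results.MP_f7db47_al.ThinRepresentatives

open TH57.Thr TH6.PF Matrix

theorem result (R : Type) [Ring R] (G : Type) [Group G] (c : ℝ) (hc : 9 / 2 < c ^ 2)
    (n : ℕ) (A : (Matrix (Fin n) (Fin n) (MonoidAlgebra R G))ˣ) :
    ∃ (m : ℕ) (C : (Matrix (Fin n ⊕ Fin m) (Fin n ⊕ Fin m) (MonoidAlgebra R G))ˣ),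
      C ∈ commutator (Matrix (Fin n ⊕ Fin m) (Fin n ⊕ Fin m) (MonoidAlgebra R G))ˣ ∧
      ThinLE (fromBlocks A.val 0 0 1 * C.val) c :=
  thin_red_fin A c hc

end Pool.Agent.Results.MP_f7db47_al.ThinRepresentatives
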