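import Pool.Agent.TH254.DK.IsoMat

/-!
Isometries of positive hermitian forms over group rings are induced from virtually cyclic
subgroups.

Let `R` be a ring with involution and `φ : R → ℤ` additive (for instance `ℤ`, the integers of a
totally real or CM field with the trace, an order in a definite quaternion algebra), let `G` be
any group and `(M, lam)` a finitely generated hermitian form over `R[G]` which is positive: `φ`
of the coefficient of `lam x x` at `1` is positive for `x ≠ 0`. Suppose `(M, lam)` is an
orthogonal sum of forms induced from subgroups in a family `F`. Then for every isometry `β` the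
pair `(M, lam, β)` is an orthogonal sum of pairs `(L j, lam, β)` induced from subgroups `V j`
which have a normal subgroup `H j` with cyclic quotient, `H j` inside a member of `F`. If `F`
consists of finite subgroups, the `V j` are virtually cyclic; so, for projective `M`, the class
of `β` in `K_1(R[G])` comes from virtually cyclic subgroups.

In particular this holds for invertible matrices `A` over `R[G]` with `A C A^* = C`, where `C`
is a positive hermitian matrix over `R[H]` and `H` is a finite subgroup.

The definitions are in `Pool.Agent.TH254.DK.Defs` (`IsHermitian`, `PositiveFor`, `IsFrame`,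
`InducedOver`, `Preserves`), `Pool.Agent.TH254.DK.IsoDefs` (`InducedPair`) and, for matrices, in
`Pool.Agent.TH254.DF.Defs` and `Pool.Agent.TH254.DF.GForm`.

Idea of the proof: `M` has a finest orthogonal decomposition which is permuted by `G`; it is
canonical, hence also permuted by `β`, and the two actions on the index set commute. For an
index `i` with stabiliser `H` take the subgroup `V` of all `g` with `g i` in the orbit of `i`
under `β`; then `V / H` is cyclic.
-/

set_option autoImplicit false

namespace Pool.Agent.Results.MP_f7db47_al.VirtuallyCyclicIsometries

open Pool.Agent.TH254.DK Pool.Agent.TH254.DF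

universe u v w

theorem result (R : Type u) [Ring R] [StarRing R] (φ : R →+ ℤ) (G : Type w) [Group G] :
    -- isometries of positive forms induced over a family of subgroups
    (∀ (M : Type v) [AddCommGroup M] [Module (MonoidAlgebra R G) M]
      (lam : M → M → MonoidAlgebra R G), Module.Finite (MonoidAlgebra R G) M →
      IsHermitian lam → PositiveFor φ lam →
      ∀ F : Set (Subgroup G), InducedOver F lam ⊤ →
      ∀ β : M ≃ₗ[MonoidAlgebra R G] M, Preserves lam lam β →
      ∃ (m : ℕ) (V H : Fin m → Subgroup G) (L : Fin m → AddSubgroup M),
        InducedPair lam β V H L ∧ ∀ j, ∃ K ∈ F, H j ≤ K) ∧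
    -- matrices which preserve a positive hermitian matrix over a finite subgroup
    (∀ (n : ℕ) (C : Matrix (Fin n) (Fin n) (MonoidAlgebra R G)), adjT C = C → GPositive φ C →
      ∀ H : Subgroup G, Finite H → EntriesIn (H : Set G) C →
      ∀ A : (Matrix (Fin n) (Fin n) (MonoidAlgebra R G))ˣ, A.val * C * adjT A.val = C →
      ∃ (m : ℕ) (V H' : Fin m → Subgroup G)
        (L : Fin m → AddSubgroup (Fin n → MonoidAlgebra R G)),
        InducedPair (gform C) (fun x => Matrix.vecMul x A.val) V H' L ∧
        ∀ j, Finite (H' j)) := by
  refine ⟨?_, ?_⟩
  · intro M _ _ lam _ h hpos F hF β hβ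
    obtain ⟨J, a, N, hN, hs⟩ := hF
    exact isometry_induced φ h hpos F hN hs β hβ
  · intro n C hC hpos H _ hH A hA
    exact matrix_induced φ hC hpos H hH A hA

end Pool.Agent.Results.MP_f7db47_al.VirtuallyCyclicIsometries
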